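import Pool.Agent.U131.SX.Twist

/-!
# Stark's conjecture for real quadratic ray class fields: from the moduli `𝔪𝔮` to the modulus `𝔪`

`F` is a real quadratic field with the real places `∞₁` (given by `ι`) and `∞₂` (given by `w`), `H`
its ray class field of modulus `𝔪∞₂`, `z` the complex conjugation above `∞₂`, and `Z σ` are the
partial zeta functions modulo `𝔪∞₂`; `Hecke` contains known facts: continuation, `Z σ 0 = 0`, and
the double zero of `Z σ + Z (z σ)` at `0`.

If Q1 holds for the moduli `𝔪𝔮`, where the classes of the primes `𝔮` generate the ray class group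
modulo `𝔪∞₂`, then Q1 holds for `𝔪` up to one square root: the numbers `exp (-2 ζ'(0, A))` are
`√δ h_A` with one `δ` in `F` and elements `h_A` of `H`, permuted by the Artin symbols, and `δ h_A²` is
a unit of absolute value one above `∞₂`.
-/

set_option autoImplicit false

namespace Pool.Agent.Results.MP_343f43_nt.AuxiliaryModuli

open NumberField Pool.Agent.U131.SX
open Pool.Agent.K4H33.SK (Qbar GQ)
open Pool.Agent.K4H33.SK.Stmt (Sub Ideals prd)

theorem result (ι w : Qbar →+* ℂ) (F H : Sub) [NumberField F] (𝔪 : Ideals F)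
    (art : Ideals F → GQ) (z : GQ) (Z : GQ → ℂ → ℂ) (h : RayBase ι w F H 𝔪 art z Z)
    (Q : Set (Ideals F)) (hQ : ∀ 𝔮 ∈ Q, Aux F 𝔪 𝔮 ∧ StarkMod ι F H (prd F 𝔪 𝔮) art)
    (hg : Generate F H art Q) :
    ∃ (δ : Qbar) (k : Ideals F → Qbar), TwistUnits ι F H 𝔪 art δ k :=
  twist_units h hQ hg

end Pool.Agent.Results.MP_343f43_nt.AuxiliaryModuli
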